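import Mathlib

set_option autoImplicit false

open MeasureTheory Filter

namespace Pool.Agent.Results.MP_3f93e8_co.CompleteBipartite

/-- The positive reals `ℝ⁺`. -/
abbrev PosReal : Type := {x : ℝ // 0 < x}

/-- The length `|[a, b] ∩ [c, d]|` of the intersection of two closed intervals (Lebesgue measure, so
zero when the intersection is empty). -/
noncomputable def interLength (a b c d : ℝ) : ℝ :=
  (volume (Set.Icc a b ∩ Set.Icc c d)).toReal

/-- `G` is a `φ`-tolerance graph: there are closed bounded intervals `I_v = [L v, R v]` and positive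
tolerances `t v` such that distinct `u`, `v` are adjacent iff `|I_u ∩ I_v| ≥ φ(t_u, t_v)`. -/
def IsToleranceGraph (φ : PosReal → PosReal → PosReal) {V : Type} (G : SimpleGraph V) : Prop :=
  ∃ (L R : V → ℝ) (t : V → PosReal), (∀ v, L v ≤ R v) ∧
    ∀ u v, u ≠ v → (G.Adj u v ↔ (φ (t u) (t v) : ℝ) ≤ interLength (L u) (R u) (L v) (R v))

/-- `φ` belongs to `Φ`: it is symmetric (positive valued by its type) and Archimedean, that is, for
every `c > 0`, `φ(x, c) → ∞` and `φ(c, x) → ∞` as `x → ∞`. -/
def MemPhi (φ : PosReal → PosReal → PosReal) : Prop :=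
  (∀ x y, φ x y = φ y x) ∧
    ∀ c, Tendsto (fun x => φ x c) atTop atTop ∧ Tendsto (fun x => φ c x) atTop atTop

/-- A graph is Archimedean if it is a `φ`-tolerance graph for every `φ ∈ Φ`. -/
def IsArchimedean {V : Type} (G : SimpleGraph V) : Prop :=
  ∀ φ : PosReal → PosReal → PosReal, MemPhi φ → IsToleranceGraph φ G

/-! ### Three orders on the vertices of `K_{3,3}` -/

/-- `i` is the strict top of its class in the `k`-th order. -/
def Top (x : Fin 3 → Fin 3 → ℝ) (k i : Fin 3) : Prop := ∀ i', i' ≠ i → x k i' < x k i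

/-- Edges avoiding `i` are below `i` in some order. -/
def Good (x y : Fin 3 → Fin 3 → ℝ) : Prop :=
  ∀ i i' j, i' ≠ i → ∃ k, x k i' < x k i ∧ y k j < x k i

theorem Top.unique {x : Fin 3 → Fin 3 → ℝ} {k i j : Fin 3} (h1 : Top x k i) (h2 : Top x k j) :
    i = j := by
  by_contra h
  exact lt_asymm (h1 j (fun e => h e.symm)) (h2 i h)

theorem exists_others (i : Fin 3) : ∃ j l : Fin 3, j ≠ i ∧ l ≠ i ∧ j ≠ l ∧ ∀ m, m = i ∨ m = j ∨ m = l := by
  revert i; decide

/-- Either `i` wins against `j` in exactly one order, in which it is the top of its class, or the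
other way around. -/
theorem dichotomy {x y : Fin 3 → Fin 3 → ℝ} (hx : Good x y) (hy : Good y x) (i j : Fin 3) :
    (∃ k, Top x k i ∧ y k j < x k i ∧ ∀ m, y m j < x m i → m = k) ∨
      (∃ k, Top y k j ∧ x k i < y k j ∧ ∀ m, x m i < y m j → m = k) := by
  by_cases hA : ∃ k, ∀ m, y m j < x m i → m = k
  · left
    obtain ⟨k, hk⟩ := hA
    obtain ⟨i1, i2, h1, h2, h12, hall⟩ := exists_others i
    obtain ⟨k1, h1a, h1b⟩ := hx i i1 j h1
    obtain ⟨k2, h2a, h2b⟩ := hx i i2 j h2
    have e1 := hk k1 h1b
    have e2 := hk k2 h2b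
    subst e1
    subst e2
    refine ⟨k2, ?_, h1b, hk⟩
    intro i' hi'
    rcases hall i' with h | h | h
    · exact absurd h hi'
    · rw [h]; exact h1a
    · rw [h]; exact h2a
  · right
    obtain ⟨j1, j2, h1, h2, h12, hall⟩ := exists_others j
    obtain ⟨k1, h1a, h1b⟩ := hy j j1 i h1
    have key : ∀ m, x m i < y m j → m = k1 := by
      intro m hm
      by_contra hne
      apply hA
      -- the orders in which `i` wins avoid `m` and `k1`, so there is at most one of them
      obtain ⟨l, hl⟩ : ∃ l : Fin 3, ∀ m', m' ≠ m → m' ≠ k1 → m' = l := by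
        revert hne
        clear hm h1b h1a
        revert m k1
        decide
      refine ⟨l, fun m' hm' => hl m' ?_ ?_⟩
      · rintro rfl; exact lt_asymm hm hm'
      · rintro rfl; exact lt_asymm h1b hm'
    obtain ⟨k2, h2a, h2b⟩ := hy j j2 i h2
    have e2 := key k2 h2b
    subst e2
    refine ⟨k2, ?_, h1b, key⟩
    intro j' hj'
    rcases hall j' with h | h | h
    · exact absurd h hj'
    · rw [h]; exact h1a
    · rw [h]; exact h2a

/-- Every vertex of the first class is the top of its class in some order. -/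
theorem exists_top {x y : Fin 3 → Fin 3 → ℝ} (hx : Good x y) (hy : Good y x) (i : Fin 3) :
    ∃ k, Top x k i := by
  by_contra hno
  have h1 : ∀ j, ∃ k, Top y k j ∧ x k i < y k j ∧ ∀ m, x m i < y m j → m = k := by
    intro j
    rcases dichotomy hx hy i j with ⟨k, hk, _⟩ | h
    · exact absurd ⟨k, hk⟩ hno
    · exact h
  choose κ hκ using h1
  have hinj : Function.Injective κ := by
    intro j j' hjj
    have a := (hκ j).1
    have b := (hκ j').1
    rw [← hjj] at b
    exact a.unique b
  have hsurj : Function.Surjective κ := Finite.surjective_of_injective hinj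
  -- every other vertex of the class is below `i` in at least two orders
  have h2 : ∀ i', i' ≠ i → ∀ k0, ∃ k, k ≠ k0 ∧ x k i' < x k i := by
    intro i' hi' k0
    obtain ⟨j, rfl⟩ := hsurj k0
    obtain ⟨k, ha, hb⟩ := hx i i' j hi'
    refine ⟨k, ?_, ha⟩
    rintro rfl
    exact lt_asymm hb (hκ j).2.1
  obtain ⟨i1, i2, n1, n2, n12, hall⟩ := exists_others i
  have h3 : ∃ k, x k i1 < x k i ∧ x k i2 < x k i := by
    have aux : ∀ P Q : Fin 3 → Prop, (∀ k0, ∃ k, k ≠ k0 ∧ P k) → (∀ k0, ∃ k, k ≠ k0 ∧ Q k) →
        ∃ k, P k ∧ Q k := by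
      intro P Q hP hQ
      obtain ⟨a, _, ha⟩ := hP 0
      obtain ⟨b, hba, hb⟩ := hP a
      obtain ⟨c, hca, hc⟩ := hQ 0
      obtain ⟨d, hdc, hd⟩ := hQ c
      have : a = c ∨ a = d ∨ b = c ∨ b = d := by
        clear ha hb hc hd hca
        revert a b c d
        decide
      rcases this with h | h | h | h
      · exact ⟨a, ha, h ▸ hc⟩
      · exact ⟨a, ha, h ▸ hd⟩
      · exact ⟨b, hb, h ▸ hc⟩
      · exact ⟨b, hb, h ▸ hd⟩
    exact aux _ _ (h2 i1 n1) (h2 i2 n2)
  obtain ⟨k, hk1, hk2⟩ := h3
  apply hno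
  refine ⟨k, ?_⟩
  intro i' hi'
  rcases hall i' with h | h | h
  · exact absurd h hi'
  · rw [h]; exact hk1
  · rw [h]; exact hk2

theorem exists_tops {x y : Fin 3 → Fin 3 → ℝ} (hx : Good x y) (hy : Good y x) :
    ∃ a : Fin 3 → Fin 3, Function.Injective a ∧ ∀ k, Top x k (a k) := by
  choose κ hκ using exists_top hx hy
  have hinj : Function.Injective κ := by
    intro i i' h
    have a := hκ i
    have b := hκ i'
    rw [← h] at b
    exact a.unique b
  have hbij : Function.Bijective κ := Finite.injective_iff_bijective.1 hinj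
  let e := Equiv.ofBijective κ hbij
  refine ⟨e.symm, e.symm.injective, fun k => ?_⟩
  have h := hκ (e.symm k)
  have h2 : κ (e.symm k) = k := e.apply_symm_apply k
  rwa [h2] at h

/-- If in two orders `k ≠ m` the class tops `a`, `b` satisfy: `a` wins against `b` only there, then
the two second-class tops are in the wrong order in the third order. -/
theorem third {x y : Fin 3 → Fin 3 → ℝ} (hy : Good y x) {a b : Fin 3 → Fin 3}
    (hb : Function.Injective b) (hbt : ∀ k, Top y k (b k)) {k m l : Fin 3} (hkm : k ≠ m)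
    (hall : ∀ n, n = k ∨ n = m ∨ n = l) (hk : y k (b k) < x k (a k)) :
    y l (b m) < y l (b k) := by
  obtain ⟨n, h1, h2⟩ := hy (b k) (b m) (a k) (fun e => hkm (hb e).symm)
  rcases hall n with h | h | h
  · subst h; exact absurd hk (lt_asymm h2)
  · subst h
    exact absurd h1 (lt_asymm (hbt n (b k) (fun e => hkm (hb e))))
  · subst h; exact h1

theorem no_good {x y : Fin 3 → Fin 3 → ℝ} (hx : Good x y) (hy : Good y x) : False := by
  obtain ⟨a, ha, hat⟩ := exists_tops hx hy
  obtain ⟨b, hb, hbt⟩ := exists_tops hy hx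
  have hdiag : ∀ k, y k (b k) < x k (a k) ∨ x k (a k) < y k (b k) := by
    intro k
    rcases dichotomy hx hy (a k) (b k) with ⟨m, h1, h2, _⟩ | ⟨m, h1, h2, _⟩
    · have : m = k := ha ((hat m).unique h1)
      subst this; exact Or.inl h2
    · have : m = k := hb ((hbt m).unique h1)
      subst this; exact Or.inr h2
  have two : ∃ k m l : Fin 3, k ≠ m ∧ (∀ n, n = k ∨ n = m ∨ n = l) ∧
      ((y k (b k) < x k (a k) ∧ y m (b m) < x m (a m)) ∨
        (x k (a k) < y k (b k) ∧ x m (a m) < y m (b m))) := by
    rcases hdiag 0 with h0 | h0 <;> rcases hdiag 1 with h1 | h1 <;> rcases hdiag 2 with h2 | h2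
    · exact ⟨0, 1, 2, by decide, by decide, Or.inl ⟨h0, h1⟩⟩
    · exact ⟨0, 1, 2, by decide, by decide, Or.inl ⟨h0, h1⟩⟩
    · exact ⟨0, 2, 1, by decide, by decide, Or.inl ⟨h0, h2⟩⟩
    · exact ⟨1, 2, 0, by decide, by decide, Or.inr ⟨h1, h2⟩⟩
    · exact ⟨1, 2, 0, by decide, by decide, Or.inl ⟨h1, h2⟩⟩
    · exact ⟨0, 2, 1, by decide, by decide, Or.inr ⟨h0, h2⟩⟩
    · exact ⟨0, 1, 2, by decide, by decide, Or.inr ⟨h0, h1⟩⟩
    · exact ⟨0, 1, 2, by decide, by decide, Or.inr ⟨h0, h1⟩⟩
  obtain ⟨k, m, l, hkm, hall, h⟩ := two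
  have hall' : ∀ n, n = m ∨ n = k ∨ n = l := fun n => by rcases hall n with h | h | h <;> tauto
  rcases h with ⟨h1, h2⟩ | ⟨h1, h2⟩
  · exact lt_asymm (third (a := a) hy hb hbt hkm hall h1) (third (a := a) hy hb hbt hkm.symm hall' h2)
  · exact lt_asymm (third (a := b) hx ha hat hkm hall h1) (third (a := b) hx ha hat hkm.symm hall' h2)

/-! ### Max-tolerance representations -/

theorem interLength_eq (a b c d : ℝ) :
    interLength a b c d = max 0 (min b d - max a c) := by
  unfold interLength
  rw [Set.Icc_inter_Icc, Real.volume_Icc, ENNReal.toReal_ofReal', max_comm]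

theorem memPhi_max : MemPhi (fun a b => max a b) := by
  refine ⟨fun x y => max_comm x y, fun c => ⟨?_, ?_⟩⟩
  · exact tendsto_atTop_mono (fun x => le_max_left x c) tendsto_id
  · exact tendsto_atTop_mono (fun x => le_max_right c x) tendsto_id

/-- The three coordinates `L`, `-R`, `t` of a vertex. -/
def coord {V : Type} (L R t : V → ℝ) (k : Fin 3) (v : V) : ℝ :=
  if k = 0 then L v else if k = 1 then - R v else t v

theorem not_maxTolerance :
    ¬ IsToleranceGraph (fun a b => max a b) (completeBipartiteGraph (Fin 3) (Fin 3)) := by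
  rintro ⟨L, R, t, hLR, h⟩
  set s : Fin 3 ⊕ Fin 3 → ℝ := fun v => (t v : ℝ) with hs
  have hspos : ∀ v, 0 < s v := fun v => (t v).2
  have hadj : ∀ u v, u ≠ v → (completeBipartiteGraph (Fin 3) (Fin 3)).Adj u v →
      max (L u) (L v) + max (s u) (s v) ≤ min (R u) (R v) := by
    intro u v huv ha
    have h1 := (h u v huv).1 ha
    rw [interLength_eq] at h1
    have h2 : ((max (t u) (t v) : PosReal) : ℝ) = max (s u) (s v) := by
      rcases le_total (t u) (t v) with hc | hc
      · rw [max_eq_right hc, max_eq_right (show s u ≤ s v from hc)]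
      · rw [max_eq_left hc, max_eq_left (show s v ≤ s u from hc)]
    rw [h2] at h1
    have h3 : 0 < max (s u) (s v) := lt_of_lt_of_le (hspos u) (le_max_left _ _)
    rcases le_total 0 (min (R u) (R v) - max (L u) (L v)) with hc | hc
    · rw [max_eq_right hc] at h1; linarith
    · rw [max_eq_left hc] at h1; linarith
  have hnon : ∀ u v, u ≠ v → ¬ (completeBipartiteGraph (Fin 3) (Fin 3)).Adj u v →
      min (R u) (R v) < max (L u) (L v) + max (s u) (s v) := by
    intro u v huv ha
    have h1 := fun hh => ha ((h u v huv).2 hh)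
    rw [interLength_eq] at h1
    have h2 : ((max (t u) (t v) : PosReal) : ℝ) = max (s u) (s v) := by
      rcases le_total (t u) (t v) with hc | hc
      · rw [max_eq_right hc, max_eq_right (show s u ≤ s v from hc)]
      · rw [max_eq_left hc, max_eq_left (show s v ≤ s u from hc)]
    rw [h2] at h1
    by_contra hcon
    push Not at hcon
    apply h1
    exact le_trans (by linarith) (le_max_right _ _)
  -- edges `u v` and vertices `w` not adjacent to `u`
  have hsep : ∀ u v w, u ≠ v → w ≠ u → (completeBipartiteGraph (Fin 3) (Fin 3)).Adj u v →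
      ¬ (completeBipartiteGraph (Fin 3) (Fin 3)).Adj u w →
      ∃ k, coord L R s k u < coord L R s k w ∧ coord L R s k v < coord L R s k w := by
    intro u v w huv hwu hauv hauw
    have h1 := hadj u v huv hauv
    have h2 := hnon u w hwu.symm hauw
    by_contra hcon
    push Not at hcon
    have c0 := hcon 0
    have c1 := hcon 1
    have c2 := hcon 2
    simp only [coord] at c0 c1 c2
    norm_num at c0 c1 c2
    have d0 : max (L u) (L w) ≤ max (L u) (L v) := by
      apply max_le (le_max_left _ _)
      by_cases hc : L u < L w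
      · exact le_trans (c0 hc) (le_max_right _ _)
      · exact le_trans (not_lt.1 hc) (le_max_left _ _)
    have d1 : min (R u) (R v) ≤ min (R u) (R w) := by
      apply le_min (min_le_left _ _)
      by_cases hc : R w < R u
      · exact le_trans (min_le_right _ _) (c1 hc)
      · exact le_trans (min_le_left _ _) (not_lt.1 hc)
    have d2 : max (s u) (s w) ≤ max (s u) (s v) := by
      apply max_le (le_max_left _ _)
      by_cases hc : s u < s w
      · exact le_trans (c2 hc) (le_max_right _ _)
      · exact le_trans (not_lt.1 hc) (le_max_left _ _)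
    linarith
  let x : Fin 3 → Fin 3 → ℝ := fun k i => coord L R s k (Sum.inl i)
  let y : Fin 3 → Fin 3 → ℝ := fun k j => coord L R s k (Sum.inr j)
  have hx : Good x y := by
    intro i i' j hii
    obtain ⟨k, h1, h2⟩ := hsep (Sum.inl i') (Sum.inr j) (Sum.inl i) (by simp)
      (by intro e; exact hii (Sum.inl.inj e).symm) (by simp [completeBipartiteGraph])
      (by simp [completeBipartiteGraph])
    exact ⟨k, h1, h2⟩
  have hy : Good y x := by
    intro j j' i hjj
    obtain ⟨k, h1, h2⟩ := hsep (Sum.inr j') (Sum.inl i) (Sum.inr j) (by simp)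
      (by intro e; exact hjj (Sum.inr.inj e).symm) (by simp [completeBipartiteGraph])
      (by simp [completeBipartiteGraph])
    exact ⟨k, h1, h2⟩
  exact no_good hx hy

/-- The function `max` belongs to `Φ`, and the complete bipartite graph `K_{3,3}` is not a
max-tolerance graph; hence `K_{3,3}` is an explicit graph that is not Archimedean. -/
theorem result :
    MemPhi (fun a b => max a b) ∧
      ¬ IsToleranceGraph (fun a b => max a b) (completeBipartiteGraph (Fin 3) (Fin 3)) ∧
      ¬ IsArchimedean (completeBipartiteGraph (Fin 3) (Fin 3)) :=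
  ⟨memPhi_max, not_maxTolerance, fun h => not_maxTolerance (h _ memPhi_max)⟩

end Pool.Agent.Results.MP_3f93e8_co.CompleteBipartite
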